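import Mathlib
import Pool.Agent.Lib.MP_0febd9_an.Upper5
import Pool.Agent.Lib.MP_0febd9_an.Repr

set_option autoImplicit false

open Matrix MeasureTheory

namespace Pool.Agent.Results.MP_0febd9_an.RelaxationGap

/-- The space of real `2 × m` matrices. -/
abbrev Mats (m : ℕ) : Type := Matrix (Fin 2) (Fin m) ℝ

/-- The inner product `Tr (A Bᵀ)`. -/
noncomputable def dot {m : ℕ} (A B : Mats m) : ℝ := Matrix.trace (A * Bᵀ)

/-- Self-adjoint and positive definite. -/
def Elliptic {m : ℕ} (L : Mats m →ₗ[ℝ] Mats m) : Prop :=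
  (∀ A B : Mats m, dot A (L B) = dot (L A) B) ∧ ∀ A : Mats m, A ≠ 0 → 0 < dot A (L A)

/-- The quadratic well `(H - F) · L (H - F) + k`. -/
noncomputable def well {m : ℕ} (L : Mats m →ₗ[ℝ] Mats m) (F : Mats m) (k : ℝ) (H : Mats m) : ℝ :=
  dot (H - F) (L (H - F)) + k

/-- The two-well energy. -/
noncomputable def twoWell {m : ℕ} (L₁ L₂ : Mats m →ₗ[ℝ] Mats m) (F₁ F₂ : Mats m) (k₁ k₂ : ℝ)
    (H : Mats m) : ℝ :=
  min (well L₁ F₁ k₁ H) (well L₂ F₂ k₂ H)

/-- Smooth potentials on the plane, periodic with period cell the unit square. -/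
def Potential {m : ℕ} (u : (Fin 2 → ℝ) → (Fin m → ℝ)) : Prop :=
  ContDiff ℝ ((⊤ : ℕ∞) : WithTop ℕ∞) u ∧
    ∀ (x : Fin 2 → ℝ) (z : Fin 2 → ℤ), u (x + fun i => (z i : ℝ)) = u x

/-- The gradient: entry `(i, j)` is the derivative of `u_j` with respect to `x_i`. -/
noncomputable def grad {m : ℕ} (u : (Fin 2 → ℝ) → (Fin m → ℝ)) (x : Fin 2 → ℝ) : Mats m :=
  Matrix.of fun (i : Fin 2) (j : Fin m) => fderiv ℝ u x (Pi.single i (1 : ℝ)) j

/-- The average of `W (F + ∇u)` over the unit square. -/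
noncomputable def cellAverage {m : ℕ} (W : Mats m → ℝ) (F : Mats m)
    (u : (Fin 2 → ℝ) → (Fin m → ℝ)) : ℝ :=
  ∫ x in Set.univ.pi (fun _ : Fin 2 => Set.Icc (0 : ℝ) 1), W (F + grad u x)

/-- The quasiconvexification: infimum of the cell averages. -/
noncomputable def QW {m : ℕ} (W : Mats m → ℝ) (F : Mats m) : ℝ :=
  sInf {q : ℝ | ∃ u : (Fin 2 → ℝ) → (Fin m → ℝ), Potential u ∧ q = cellAverage W F u}

/-- Convexity along all rank-one lines. -/
def RankOneConvex {m : ℕ} (g : Mats m → ℝ) : Prop :=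
  ∀ (A : Mats m) (a : Fin 2 → ℝ) (b : Fin m → ℝ),
    ConvexOn ℝ Set.univ (fun t : ℝ => g (A + t • Matrix.vecMulVec a b))

/-- `R` is the largest rank-one convex function with `R ≤ W` everywhere. -/
def IsRW {m : ℕ} (W R : Mats m → ℝ) : Prop :=
  RankOneConvex R ∧ (∀ H, R H ≤ W H) ∧
    ∀ g : Mats m → ℝ, RankOneConvex g → (∀ H, g H ≤ W H) → ∀ H, g H ≤ R H

lemma exists_RW {m : ℕ} (W : Mats m → ℝ) (hW : ∀ H, 0 ≤ W H) : ∃ R, IsRW W R := by
  have hbdd : ∀ H, BddAbove {r : ℝ | ∃ g : Mats m → ℝ, RankOneConvex g ∧ (∀ H, g H ≤ W H) ∧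
      r = g H} := by
    intro H
    refine ⟨W H, ?_⟩
    rintro r ⟨g, _, hle, rfl⟩
    exact hle H
  have hne : ∀ H, {r : ℝ | ∃ g : Mats m → ℝ, RankOneConvex g ∧ (∀ H, g H ≤ W H) ∧
      r = g H}.Nonempty := by
    intro H
    refine ⟨0, fun _ => 0, ?_, hW, rfl⟩
    intro A a b
    exact convexOn_const 0 convex_univ
  refine ⟨fun H => sSup {r : ℝ | ∃ g : Mats m → ℝ, RankOneConvex g ∧ (∀ H, g H ≤ W H) ∧
      r = g H}, ?_, ?_, ?_⟩
  · intro A a b
    refine ⟨convex_univ, ?_⟩
    intro s _ t _ α β hα hβ hαβ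
    apply csSup_le (hne _)
    rintro r ⟨g, hg, hle, rfl⟩
    have h := (hg A a b).2 (Set.mem_univ s) (Set.mem_univ t) hα hβ hαβ
    refine le_trans h ?_
    simp only [smul_eq_mul]
    have h1 := le_csSup (hbdd (A + s • Matrix.vecMulVec a b)) ⟨g, hg, hle, rfl⟩
    have h2 := le_csSup (hbdd (A + t • Matrix.vecMulVec a b)) ⟨g, hg, hle, rfl⟩
    have h1' := mul_le_mul_of_nonneg_left h1 hα
    have h2' := mul_le_mul_of_nonneg_left h2 hβ
    linarith
  · intro H
    apply csSup_le (hne _)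
    rintro r ⟨g, _, hle, rfl⟩
    exact hle H
  · intro g hg hle H
    exact le_csSup (hbdd H) ⟨g, hg, hle, rfl⟩

section Padding

variable {k : ℕ}

/-- the first ten columns -/
def rs (H : Mats (10 + k)) : Mats 10 := Matrix.of fun i a => H i (Fin.castAdd k a)

/-- sum of products of the remaining entries -/
noncomputable def tl (A B : Mats (10 + k)) : ℝ :=
  ∑ i, ∑ b, A i (Fin.natAdd 10 b) * B i (Fin.natAdd 10 b)

/-- extension by zero columns -/
noncomputable def em (C : Mats 10) : Mats (10 + k) :=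
  Matrix.of fun i j => Fin.addCases (motive := fun _ => ℝ) (fun a => C i a) (fun _ => 0) j

/-- the padded modulus -/
noncomputable def pad (L : Mats 10 →ₗ[ℝ] Mats 10) : Mats (10 + k) →ₗ[ℝ] Mats (10 + k) where
  toFun H := Matrix.of fun i j =>
    Fin.addCases (motive := fun _ => ℝ) (fun a => L (rs H) i a) (fun b => H i (Fin.natAdd 10 b)) j
  map_add' A B := by
    have h : rs (A + B) = rs A + rs B := rfl
    ext i j
    simp only [Matrix.of_apply, Matrix.add_apply, h, map_add]
    refine Fin.addCases (fun a => ?_) (fun b => ?_) j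
    · simp
    · simp
  map_smul' c A := by
    have h : rs (c • A) = c • rs A := rfl
    ext i j
    simp only [Matrix.of_apply, Matrix.smul_apply, h, map_smul, RingHom.id_apply]
    refine Fin.addCases (fun a => ?_) (fun b => ?_) j
    · simp
    · simp

lemma dot_eq {m : ℕ} (A B : Mats m) : dot A B = ∑ r, ∑ i, A r i * B r i := by
  simp [dot, Matrix.trace, Matrix.mul_apply]

lemma dot_pad (L : Mats 10 →ₗ[ℝ] Mats 10) (A B : Mats (10 + k)) :
    dot A (pad L B) = dot (rs A) (L (rs B)) + tl A B := by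
  rw [dot_eq, dot_eq, tl, ← Finset.sum_add_distrib]
  apply Finset.sum_congr rfl
  intro r _
  rw [Fin.sum_univ_add]
  simp [pad, rs]

lemma dot_comm {m : ℕ} (A B : Mats m) : dot A B = dot B A := by
  rw [dot_eq, dot_eq]
  simp only [mul_comm]

lemma tl_comm (A B : Mats (10 + k)) : tl A B = tl B A := by
  simp only [tl, mul_comm]

lemma tl_nonneg (A : Mats (10 + k)) : 0 ≤ tl A A :=
  Finset.sum_nonneg fun i _ => Finset.sum_nonneg fun b _ => mul_self_nonneg _

lemma elliptic_pad (L : Mats 10 →ₗ[ℝ] Mats 10) (hL : Elliptic L) :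
    Elliptic (pad (k := k) L) := by
  constructor
  · intro A B
    rw [dot_comm (pad L A) B, dot_pad, dot_pad, hL.1, dot_comm (L (rs A)), tl_comm]
  · intro A hA
    rw [dot_pad]
    by_cases h : rs A = 0
    · have h2 : 0 < tl A A := by
        rcases (tl_nonneg A).lt_or_eq with h2 | h2
        · exact h2
        exfalso
        apply hA
        have h3 := h2.symm
        unfold tl at h3
        rw [Finset.sum_eq_zero_iff_of_nonneg
          (fun i _ => Finset.sum_nonneg fun b _ => mul_self_nonneg _)] at h3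
        ext i j
        refine Fin.addCases (fun a => ?_) (fun b => ?_) j
        · have := congrFun (congrFun h i) a
          simpa [rs] using this
        · have h4 := h3 i (Finset.mem_univ i)
          rw [Finset.sum_eq_zero_iff_of_nonneg (fun b _ => mul_self_nonneg _)] at h4
          have h5 := h4 b (Finset.mem_univ b)
          simpa using h5
      rw [h]
      simpa [dot] using h2
    · have h1 := hL.2 (rs A) h
      have h2 := tl_nonneg A
      linarith

lemma well_pad (L : Mats 10 →ₗ[ℝ] Mats 10) (F : Mats 10) (c : ℝ) (H : Mats (10 + k)) :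
    well (pad L) (em F) c H = well L F c (rs H) + tl H H := by
  have h1 : rs (H - em F) = rs H - F := by
    ext i a
    simp [rs, em]
  have h2 : tl (H - em F) (H - em F) = tl H H := by
    simp [tl, em]
  unfold well
  rw [dot_pad, h1, h2]
  ring

end Padding

open Pool.Agent.Lib.MP0febd9 in
/-- For every `m ≥ 10` there are two quadratic wells on `2 × m` matrices whose two-well energy
has `QW(F) < RW(F)` for some `F`. -/
theorem result (m : ℕ) (hm : 10 ≤ m) :
    ∃ (L₁ L₂ : Mats m →ₗ[ℝ] Mats m) (F₁ F₂ : Mats m) (k₁ k₂ : ℝ),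
      Elliptic L₁ ∧ Elliptic L₂ ∧ (∀ H, 0 ≤ twoWell L₁ L₂ F₁ F₂ k₁ k₂ H) ∧
      ∃ R : Mats m → ℝ, IsRW (twoWell L₁ L₂ F₁ F₂ k₁ k₂) R ∧
        ∃ F : Mats m,
          (∃ u : (Fin 2 → ℝ) → (Fin m → ℝ), Potential u ∧
            cellAverage (twoWell L₁ L₂ F₁ F₂ k₁ k₂) F u < 27 / 2000) ∧
          QW (twoWell L₁ L₂ F₁ F₂ k₁ k₂) F < 27 / 2000 ∧ 27 / 2000 ≤ R F := by
  obtain ⟨k, rfl⟩ := Nat.exists_eq_add_of_le hm
  obtain ⟨p, hp1, hp2, u, hu, hper, hint⟩ := Lib.MP0febd9.upper_bound
  obtain ⟨F₁, k₁, h₁⟩ := Lib.MP0febd9.exists_repr 1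
  obtain ⟨F₂, k₂, h₂⟩ := Lib.MP0febd9.exists_repr (-1)
  have hell : ∀ σ : ℝ, Elliptic (LL σ) := by
    intro σ
    constructor
    · intro A B
      have e : dot (LL σ A) B = dot B (LL σ A) := dot_comm _ _
      rw [e]
      unfold dot
      rw [trace_LL, trace_LL, Bf_comm]
    · intro A hA
      unfold dot
      rw [trace_LL]
      exact Bf_pos σ A hA
  have hw1 : ∀ H : Mats (10 + k), well (pad (LL 1)) (em F₁) k₁ H = Wq 1 (rs H) + tl H H := by
    intro H
    rw [well_pad]
    unfold well dot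
    rw [h₁]
  have hw2 : ∀ H : Mats (10 + k), well (pad (LL (-1))) (em F₂) k₂ H = Wq (-1) (rs H) + tl H H := by
    intro H
    rw [well_pad]
    unfold well dot
    rw [h₂]
  have hW : ∀ H : Mats (10 + k), twoWell (pad (LL 1)) (pad (LL (-1))) (em F₁) (em F₂) k₁ k₂ H
      = min (Wq 1 (rs H)) (Wq (-1) (rs H)) + tl H H := by
    intro H
    unfold twoWell
    rw [hw1, hw2, min_add_add_right]
  have hW0 : ∀ H : Mats (10 + k),
      0 ≤ twoWell (pad (LL 1)) (pad (LL (-1))) (em F₁) (em F₂) k₁ k₂ H := by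
    intro H
    rw [hW]
    have h1 := le_min (Wq_nonneg 1 (rs H)) (Wq_nonneg (-1) (rs H))
    have h2 := tl_nonneg H
    linarith
  obtain ⟨R, hR⟩ := exists_RW _ hW0
  refine ⟨pad (LL 1), pad (LL (-1)), em F₁, em F₂, k₁, k₂, elliptic_pad _ (hell 1),
    elliptic_pad _ (hell (-1)), hW0, R, hR, em (F0 p), ?_⟩
  -- the padded potential
  have hexu : ∃ v : (Fin 2 → ℝ) → (Fin (10 + k) → ℝ), Potential v ∧
      cellAverage (twoWell (pad (LL 1)) (pad (LL (-1))) (em F₁) (em F₂) k₁ k₂) (em (F0 p)) v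
        < 27 / 2000 := by
    let v : (Fin 2 → ℝ) → (Fin (10 + k) → ℝ) := fun x =>
      fun j => Fin.addCases (motive := fun _ => ℝ) (fun a => u x a) (fun _ => 0) j
    have hvc : ∀ (x : Fin 2 → ℝ) (a : Fin 10), v x (Fin.castAdd k a) = u x a := by
      intro x a
      simp [v]
    have hvn : ∀ (x : Fin 2 → ℝ) (b : Fin k), v x (Fin.natAdd 10 b) = 0 := by
      intro x b
      simp [v]
    have hv : ContDiff ℝ ((⊤ : ℕ∞) : WithTop ℕ∞) v := by
      rw [contDiff_pi]
      intro j
      refine Fin.addCases (fun a => ?_) (fun b => ?_) j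
      · simp only [hvc]
        exact (contDiff_pi.1 hu) a
      · simp only [hvn]
        exact contDiff_const
    have hd : Differentiable ℝ u := hu.differentiable (by simp)
    have hdv : Differentiable ℝ v := hv.differentiable (by simp)
    have hgc : ∀ (x : Fin 2 → ℝ) (w : Fin 2 → ℝ) (a : Fin 10),
        fderiv ℝ v x w (Fin.castAdd k a) = fderiv ℝ u x w a := by
      intro x w a
      have e1 : fderiv ℝ v x w (Fin.castAdd k a)
          = fderiv ℝ (fun y => v y (Fin.castAdd k a)) x w := by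
        rw [fderiv_apply (hdv x)]
        rfl
      have e2 : fderiv ℝ u x w a = fderiv ℝ (fun y => u y a) x w := by
        rw [fderiv_apply (hd x)]
        rfl
      rw [e1, e2]
      simp only [hvc]
    have hgn : ∀ (x : Fin 2 → ℝ) (w : Fin 2 → ℝ) (b : Fin k),
        fderiv ℝ v x w (Fin.natAdd 10 b) = 0 := by
      intro x w b
      have e1 : fderiv ℝ v x w (Fin.natAdd 10 b)
          = fderiv ℝ (fun y => v y (Fin.natAdd 10 b)) x w := by
        rw [fderiv_apply (hdv x)]
        rfl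
      rw [e1]
      simp only [hvn]
      simp
    refine ⟨v, ⟨hv, ?_⟩, ?_⟩
    · intro x z
      have hx := hper x z
      funext j
      refine Fin.addCases (fun a => ?_) (fun b => ?_) j
      · rw [hvc, hvc, hx]
      · rw [hvn, hvn]
    · have heq : ∀ x : Fin 2 → ℝ,
          twoWell (pad (LL 1)) (pad (LL (-1))) (em F₁) (em F₂) k₁ k₂ (em (F0 p) + grad v x)
          = min (Wq 1 (F0 p + Matrix.of (fun (i : Fin 2) (α : Fin 10) =>
                fderiv ℝ u x (Pi.single i (1 : ℝ)) α)))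
              (Wq (-1) (F0 p + Matrix.of (fun (i : Fin 2) (α : Fin 10) =>
                fderiv ℝ u x (Pi.single i (1 : ℝ)) α))) := by
        intro x
        have e1 : rs (em (F0 p) + grad v x) = F0 p + Matrix.of (fun (i : Fin 2) (α : Fin 10) =>
                fderiv ℝ u x (Pi.single i (1 : ℝ)) α) := by
          ext i a
          simp [rs, em, grad, hgc]
        have e2 : tl (em (F0 p) + grad v x) (em (F0 p) + grad v x) = 0 := by
          simp [tl, em, grad, hgn]
        rw [hW, e1, e2, add_zero]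
      unfold cellAverage
      simp only [heq]
      exact hint
  obtain ⟨v, hv, hvlt⟩ := hexu
  refine ⟨⟨v, hv, hvlt⟩, ?_, ?_⟩
  · refine lt_of_le_of_lt (csInf_le ?_ ⟨v, hv, rfl⟩) hvlt
    refine ⟨0, ?_⟩
    rintro q ⟨w, -, rfl⟩
    exact integral_nonneg fun x => hW0 _
  · have hle := hR.2.2 (fun H => G (rs H)) ?_ ?_ (em (F0 p))
    · have e : rs (em (k := k) (F0 p)) = F0 p := by
        ext i a
        simp [rs, em]
      simp only [e] at hle
      exact le_trans (G_F0_ge hp1 hp2) hle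
    · intro A a b
      have e : ∀ t : ℝ, rs (A + t • Matrix.vecMulVec a b)
          = rs A + t • Matrix.vecMulVec a (fun j : Fin 10 => b (Fin.castAdd k j)) := by
        intro t
        ext i j
        simp [rs, Matrix.vecMulVec_apply]
      simp only [e]
      exact G_rankOne (rs A) a _
    · intro H
      rw [hW]
      have h1 := le_min (G_le_Wq (rs H) (Or.inl rfl)) (G_le_Wq (rs H) (Or.inr rfl))
      have h2 := tl_nonneg H
      linarith

end Pool.Agent.Results.MP_0febd9_an.RelaxationGap
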